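import Pool.Agent.H91.CF.Main
import Pool.Agent.H65.AD.TargetsF

/-!
# Complete family, section 6: the first moment in mean square, targets
-/

set_option autoImplicit false

open MeasureTheory Set Filter NumberField
open scoped Real nonZeroDivisors

namespace Pool.Agent.H65.CF

open Pool.Agent.H31.CN Pool.Agent.H65.AD Pool.Agent.H91.CF

/-! ### Definitions -/

/-- the principal form of level `f1 f` -/
def Qp (f D : ℕ) : QF := (1, (f1 f : ℤ) * (Q1 D).2.1, (f1 f : ℤ) ^ 2 * (Q1 D).2.2)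

/-- the forms of the first moment -/
def Qs (f d j D : ℕ) : QF :=
  ((d : ℤ) ^ 2, (d : ℤ) * ((rd f / d : ℕ) : ℤ) * ((Qp f D).2.1 + 2 * j),
    ((rd f / d : ℕ) : ℤ) ^ 2 * val (Qp f D) ((j : ℤ), 1))

open Classical in
/-- the unit roots modulo `d` -/
noncomputable def ju (f d D : ℕ) : Finset ℕ :=
  (Finset.range d).filter (fun j : ℕ => IsCoprime (val (Qp f D) ((j : ℤ), 1)) (d : ℤ))

/-- the mollifier sum -/
noncomputable def E0 (P : Polynomial ℝ) (M : ℝ) (N D : ℕ) : ℝ :=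
  ∑ m ∈ Finset.Icc 1 ⌊M⌋₊, cm P M N m / m * ∏ p ∈ m.primeFactors, (1 + (ch p D : ℝ))

/-- the mollifier sum with a logarithm -/
noncomputable def E1 (P : Polynomial ℝ) (M : ℝ) (N D : ℕ) : ℝ :=
  ∑ m ∈ Finset.Icc 1 ⌊M⌋₊, cm P M N m / m * (∏ p ∈ m.primeFactors, (1 + (ch p D : ℝ))) *
    Real.log m

/-! ### The kernel at the principal form -/

open Classical in
/-- (KPR) the product of the local kernels as a sum over lattices. -/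
def T_KPR : Prop :=
  ∀ (g : ℕ) (Q : QF) (n : ℕ → ℝ) (x y : ℤ), Squarefree g → IsCoprime Q.1 (g : ℤ) →
    (∀ p ∈ g.primeFactors,
      n p = 1 + ((Finset.range p).filter (fun j : ℕ => ¬ (p : ℤ) ∣ val Q ((j : ℤ), 1))).card) →
    ∏ p ∈ g.primeFactors, (if (p : ℤ) ∣ val Q (x, y) then 0 else
        (if (p : ℤ) ∣ y then 1 else 0) - 1 / n p) =
      ∑ d ∈ g.divisors, (∏ p ∈ d.primeFactors, -(1 / n p)) *
        (∏ p ∈ (g / d).primeFactors, (1 - 1 / n p)) *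
        (if ((g / d : ℕ) : ℤ) ∣ y then (((Finset.range d).filter (fun j : ℕ =>
          IsCoprime (val Q ((j : ℤ), 1)) (d : ℤ) ∧ (d : ℤ) ∣ x - j * y)).card : ℝ) else 0)

/-- (NRQ) the roots of the principal form. -/
def T_NRQ : Prop :=
  ∀ D p : ℕ, (D % 4 = 0 ∨ D % 4 = 3) → p.Prime →
    (nrt p 1 (Q1 D).2.1 (Q1 D).2.2 : ℤ) = 1 + ch p D ∧ ch p D ∈ ({-1, 0, 1} : Finset ℤ) ∧
    (p ≠ 2 → ch p D = chi p D)

/-- (NPF) the numbers of the unit lines. -/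
def T_NPF : Prop :=
  ∀ f D p : ℕ, 0 < f → (D % 4 = 0 ∨ D % 4 = 3) → p.Prime → p ∣ f →
    npQ f p (Q1 D) = npD f p D ∧ 1 ≤ npD f p D ∧
    (npD f p D : ℤ) =
      1 + ((Finset.range p).filter (fun j : ℕ => ¬ (p : ℤ) ∣ val (Qp f D) ((j : ℤ), 1))).card

/-- (PRM) the local numbers under a change of variables. -/
def T_PRM : Prop :=
  ∀ (m : ℕ) (Q Q' : QF) (a b c d : ℤ), Squarefree m → IsCoprime (a * d - b * c) (m : ℤ) →
    (∀ v : ℤ × ℤ, val Q' v = val Q (a * v.1 + b * v.2, c * v.1 + d * v.2)) →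
    (∀ v : ℤ × ℤ, nu m Q' v = nu m Q (a * v.1 + b * v.2, c * v.1 + d * v.2)) ∧
    (IsCoprime Q.1 (m : ℤ) → IsCoprime Q'.1 (m : ℤ) →
      ∀ p ∈ m.primeFactors, nrt p Q'.1 Q'.2.1 Q'.2.2 = nrt p Q.1 Q.2.1 Q.2.2)

/-- (ZKE) the projected mollified value of the principal form. -/
def T_ZKE : Prop :=
  ∀ f D : ℕ, 0 < f → 0 < D → (D % 4 = 0 ∨ D % 4 = 3) → ∀ (S : Finset ℕ) (c : ℕ → ℝ),
    (∀ m ∈ S, Squarefree m ∧ Nat.Coprime m f) →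
    Zk f S c (Q1 D) =
      ∑ d ∈ (rd f).divisors, cfd f d D * ∑ j ∈ ju f d D, Zc S c (Qs f d j D)

/-- (CSJ) the sum of the coefficients. -/
def T_CSJ : Prop :=
  ∀ f D : ℕ, 0 < f → (D % 4 = 0 ∨ D % 4 = 3) →
    ∑ d ∈ (rd f).divisors, cfd f d D * (((ju f d D).card : ℝ) / d) =
      piD f D * ∏ p ∈ f.primeFactors, (1 - 1 / (p : ℝ))

/-! ### The mollified value of a form -/

open Classical in
/-- (PZF) the mollified value of a form as a sum over roots. -/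
def T_PZF : Prop :=
  ∀ (Q : QF) (m : ℕ), 0 < Q.1 → 0 < dsc Q → Squarefree m → IsCoprime Q.1 (m : ℤ) →
    Summable (fun v : ℤ × ℤ => Vk (val Q v / (m * Real.sqrt (dsc Q))) * nu m Q v /
      Real.sqrt (val Q v)) ∧
    ∑' v : ℤ × ℤ, Vk (val Q v / (m * Real.sqrt (dsc Q))) * nu m Q v / Real.sqrt (val Q v) =
      (1 / Real.sqrt m) * ∑ j ∈ (Finset.range m).filter
        (fun j : ℕ => (m : ℤ) ∣ Q.1 * (j : ℤ) ^ 2 + Q.2.1 * j + Q.2.2),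
          zf (m * Q.1) (Q.2.1 + 2 * Q.1 * j) (dsc Q)

/-- (RAR) the arrangement of the mollifier. -/
def T_RAR : Prop :=
  ∀ (P : Polynomial ℝ) (M : ℝ) (N f : ℕ) (D : ℤ) (g : ℕ → ℝ), Squarefree N → 0 < f →
    (∀ p, p.Prime → p ∣ f → p ∣ N) →
    ∑ m ∈ SDf M N f, CDf P M N f D m * g m =
      ∑ m ∈ Finset.Icc 1 ⌊M⌋₊, ∑ n ∈ (nf N f).divisors, anf N f n D * cm P M N m * g (n * m)

/-- (ZCQ) the mollified value of the forms of the first moment. -/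
def T_ZCQ : Prop :=
  ∀ (P : Polynomial ℝ) (N f : ℕ) (θ η : ℝ), 1 ≤ N → 2 ∣ N → Squarefree N → 0 < f →
    (∀ p, p.Prime → p ∣ f → p ∣ N) → 0 < θ → θ < 1 / 4 → 0 < η →
    ∃ C Y₀ : ℝ, 0 < C ∧ ∀ Y : ℝ, Y₀ ≤ Y → ∀ D : ℕ, (D % 4 = 0 ∨ D % 4 = 3) → η * Y ≤ D →
      (D : ℝ) ≤ Y → ∀ d ∈ (rd f).divisors, ∀ j : ℕ,
      |Zc (SDf (Y ^ θ) N f) (CDf P (Y ^ θ) N f D) (Qs f d j D) -
        1 / (d : ℝ) * ((∏ p ∈ (nf N f).primeFactors, (1 - 1 / (p : ℝ))) *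
          (Real.log (Real.sqrt D) * E0 P (Y ^ θ) N D - E1 P (Y ^ θ) N D))| ≤
        C * |E0 P (Y ^ θ) N D| + Y ^ (-2 : ℝ)

/-- (ZXF) the first moment in terms of the quadratic characters. -/
def T_ZXF : Prop :=
  ∀ (P : Polynomial ℝ) (N f : ℕ) (θ η : ℝ), 1 ≤ N → 2 ∣ N → Squarefree N → 0 < f →
    (∀ p, p.Prime → p ∣ f → p ∣ N) → 0 < θ → θ < 1 / 4 → 0 < η →
    ∃ C Y₀ : ℝ, 0 < C ∧ ∀ Y : ℝ, Y₀ ≤ Y → ∀ D : ℕ, (D % 4 = 0 ∨ D % 4 = 3) → η * Y ≤ D →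
      (D : ℝ) ≤ Y →
      |ZDn P (Y ^ θ) N f D - piD f D * ((∏ p ∈ N.primeFactors, (1 - 1 / (p : ℝ))) *
          (Real.log (Real.sqrt D) * E0 P (Y ^ θ) N D - E1 P (Y ^ θ) N D))| ≤
        C * |E0 P (Y ^ θ) N D| + Y ^ (-1 : ℝ)

/-- (EXD) the mollifier sums in terms of the real characters. -/
def T_EXD : Prop :=
  ∀ (P : Polynomial ℝ) (M : ℝ) (N D : ℕ), 2 ∣ N → (D % 4 = 0 ∨ D % 4 = 3) →
    E0 P M N D = ∑ r ∈ (Finset.Icc 1 ⌊M⌋₊).filter (fun r => Squarefree r ∧ Nat.Coprime r N),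
      xD r D * A0 P M N r ∧
    E1 P M N D = ∑ r ∈ (Finset.Icc 1 ⌊M⌋₊).filter (fun r => Squarefree r ∧ Nat.Coprime r N),
      xD r D * A1 P M N r

/-- (ZVA) the variance of the first moment, for all `D`. -/
def T_ZVA : Prop :=
  ∀ (P : Polynomial ℝ) (θ η ε : ℝ), Polynomial.X ^ 5 ∣ P → 0 < θ → θ < 1 / 4 → 0 < η →
    0 < ε → ∃ R₀ : ℕ, ∀ R : ℕ, R₀ ≤ R → ∀ CE : ℝ, 0 < CE → ∃ Y₀ : ℝ, ∀ Y : ℝ, Y₀ ≤ Y →
      ∀ (s : Finset ℕ) (Z w : ℕ → ℝ),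
      (∀ D ∈ s, η * Y ≤ (D : ℝ) ∧ (D : ℝ) ≤ Y ∧ 0 ≤ w D ∧ w D ≤ 1 ∧
        |Z D - w D * ((∏ p ∈ (primorial R).primeFactors, (1 - 1 / (p : ℝ))) *
          (Real.log (Real.sqrt D) * (∑ r ∈ (Finset.Icc 1 ⌊Y ^ θ⌋₊).filter (fun r =>
              Squarefree r ∧ Nat.Coprime r (primorial R)), xD r D * A0 P (Y ^ θ) (primorial R) r) -
            ∑ r ∈ (Finset.Icc 1 ⌊Y ^ θ⌋₊).filter (fun r =>
              Squarefree r ∧ Nat.Coprime r (primorial R)),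
              xD r D * A1 P (Y ^ θ) (primorial R) r))| ≤
          CE * |∑ r ∈ (Finset.Icc 1 ⌊Y ^ θ⌋₊).filter (fun r =>
              Squarefree r ∧ Nat.Coprime r (primorial R)), xD r D * A0 P (Y ^ θ) (primorial R) r| +
            Y ^ (-1 : ℝ)) →
      ∑ D ∈ s, (Z D - w D * zP P θ) ^ 2 ≤ ε * Y

end Pool.Agent.H65.CF
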