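import Pool.Agent.H31.CN.FinA
import Pool.Agent.H16.CF.NRQ
import Pool.Agent.H16.CF.ZCQ
import Pool.Agent.H18.CFH.CSJ
import Pool.Agent.H29.CF.NPF
import Pool.Agent.H37.AD.QLS
import Pool.Agent.H39.CFH.ZKE
import Pool.Agent.H65.CF.ZVA
import Pool.Agent.H55.CFH.FMF
import Pool.Agent.H55.CFH.ZXF
import Pool.Agent.H56.CF.PZF
import Pool.Agent.H60.CFH.PRM
import Pool.Agent.H69.AD.ZCF
import Pool.Agent.H70.AD.REP
import Pool.Agent.H72.CFH.KPR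
import Pool.Agent.H79.AD.DLS
import Pool.Agent.H83.CF.EXD
import Pool.Agent.H85.CFH.RAR
import Pool.Agent.H95.AD.BMU

/-!
# Complete family, section 6: the first moment in mean square, assembled
-/

set_option autoImplicit false

namespace Pool.Agent.H65.CF.Asm

open Pool.Agent.H31.CN Pool.Agent.H31.CN.Fin Pool.Agent.H65.AD Pool.Agent.H91.CF
  Pool.Agent.H65.CF

theorem a_KPR : T_KPR := Pool.Agent.H72.CFH.pf_KPR

theorem a_NRQ : T_NRQ := Pool.Agent.H16.CFH.pf_NRQ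

theorem a_NPF : T_NPF := Pool.Agent.H29.CFH.pf_NPF a_NRQ

theorem a_PRM : T_PRM := Pool.Agent.H60.CFH.pf_PRM

theorem a_ZKE : T_ZKE := Pool.Agent.H39.CFH.pf_ZKE a_KPR a_NPF a_PRM

theorem a_CSJ : T_CSJ := Pool.Agent.H18.CFH.pf_CSJ a_NPF

theorem a_PZF : T_PZF := Pool.Agent.H56.CF.PZF.pf_PZF c_HK3 c_ZTH

theorem a_RAR : T_RAR := Pool.Agent.H85.CFH.pf_RAR

theorem a_ZCQ : T_ZCQ := Pool.Agent.H16.CFH.pf_ZCQ a_PZF a_PRM a_NRQ a_RAR c_BAV c_VK c_VGR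

theorem a_ZXF : T_ZXF := Pool.Agent.H55.CFH.pf_ZXF a_ZKE a_CSJ a_ZCQ a_NPF

theorem a_EXD : T_EXD := Pool.Agent.H83.CF.pf_EXD a_NRQ

theorem a_QLS : T_QLS := Pool.Agent.H37.ADM.pf_QLS Pool.Agent.H79.AD.pf_DLS Pool.Agent.H70.ADM.pf_REP

theorem a_ZCF : T_ZCF := Pool.Agent.H69.ADM.pf_ZCF (Pool.Agent.H95.ADM.pf_BMU c_MU1)

theorem a_ZVA : T_ZVA := Pool.Agent.H65.CFZ.pf_ZVA a_ZCF a_QLS c_MU3

theorem a_FMf : T_FMf := Pool.Agent.H55.CFH.pf_FMF a_ZXF a_EXD a_ZVA a_NPF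

end Pool.Agent.H65.CF.Asm
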