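import Pool.Agent.H31.CN.FinA
import Pool.Agent.H3.CF.HLO
import Pool.Agent.H9.CF.PIDP
import Pool.Agent.H9.CF.PRPN
import Pool.Agent.H14.CF.PPCT
import Pool.Agent.H18.CF.PCHD
import Pool.Agent.H55.CF.PIDN
import Pool.Agent.H56.CF.PPFD
import Pool.Agent.H73.CF.PNPQ
import Pool.Agent.H3.CF.SMN
import Pool.Agent.H4.CF.HLR
import Pool.Agent.H4.CF.LMB
import Pool.Agent.H18.CFH.BLV
import Pool.Agent.H30.CF.PDS
import Pool.Agent.H30.CF.TDS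
import Pool.Agent.H37.AD.QLS
import Pool.Agent.H40.CFH.HLK
import Pool.Agent.H40.CFH.THC
import Pool.Agent.H41.CFH.HSY
import Pool.Agent.H41.CFH.HUP
import Pool.Agent.H51.CFH.LRB
import Pool.Agent.H60.CFH.DTS
import Pool.Agent.H68.CF.DEC
import Pool.Agent.H69.CF.HLQ
import Pool.Agent.H70.AD.REP
import Pool.Agent.H70.CFH.SVR
import Pool.Agent.H72.CFH.CHM
import Pool.Agent.H72.CFH.GQB
import Pool.Agent.H74.AD.SMR
import Pool.Agent.H79.AD.DLS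

/-!
# Complete family, section 7: class numbers and Euler products, assembled
-/

set_option autoImplicit false

namespace Pool.Agent.H65.CF.Asm

open Pool.Agent.H31.CN Pool.Agent.H31.CN.Fin Pool.Agent.H65.AD Pool.Agent.H65.CF

theorem b_CHM : T_CHM := Pool.Agent.H72.CFH.pf_CHM

theorem b_PDS : T_PDS := Pool.Agent.H30.CF.pf_PDS

theorem b_TDS : T_TDS := Pool.Agent.H30.CF.pf_TDS b_PDS

theorem b_GQB : T_GQB := Pool.Agent.H72.CFH.pf_GQB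

theorem b_LMB : T_LMB := Pool.Agent.H4.CFH.pf_LMB b_CHM b_PDS b_GQB

theorem b_DEC : T_DEC := Pool.Agent.H68.CF.pf_DEC

theorem b_SMN : T_SMN := Pool.Agent.H3.CFH.pf_SMN b_CHM

theorem b_LRB : T_LRB := Pool.Agent.H51.CFH.pf_LRB

theorem b_QLS : T_QLS := Pool.Agent.H37.ADM.pf_QLS Pool.Agent.H79.AD.pf_DLS Pool.Agent.H70.ADM.pf_REP

theorem b_BLV : T_BLV := Pool.Agent.H18.CFH.pf_BLV b_QLS

theorem b_SVR : T_SVR := Pool.Agent.H70.CFH.pf_SVR b_CHM b_DEC b_SMN b_BLV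

theorem b_DTS : T_DTS := Pool.Agent.H60.CFH.pf_DTS b_CHM b_GQB

theorem b_PCT : Pool.Agent.H95.CF.T_PCT := Pool.Agent.H14.CF.pf_PCT

theorem b_PFD : Pool.Agent.H95.CF.T_PFD := Pool.Agent.H56.CF.pf_PFD Pool.Agent.H73.CF.pf_NPQ b_PCT

theorem b_IDN : Pool.Agent.H95.CF.T_IDN :=
  Pool.Agent.H55.CF.pf_IDN (Pool.Agent.H9.CF.pf_IDP b_PFD) (Pool.Agent.H18.CF.pf_CHD b_CHM) b_CHM

theorem b_RPN : T_RPN := Pool.Agent.H9.CF.pf_RPN b_PCT b_IDN b_CHM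

theorem b_THC : T_THC := Pool.Agent.H40.CFH.pf_THC b_RPN c_THE c_QDV b_TDS b_CHM

theorem b_HSY : T_HSY := Pool.Agent.H41.CFH.pf_HSY b_THC b_LMB b_TDS b_GQB b_CHM

theorem b_HLK : T_HLK :=
  Pool.Agent.H40.CFH.pf_HLK b_HSY b_SVR b_GQB b_SMN b_DTS Pool.Agent.H74.ADM.pf_SMR b_CHM

theorem b_HLQ : T_HLQ := Pool.Agent.H69.CFH.pf_HLQ b_HLK b_HSY b_LRB

theorem b_HLR : T_HLR := Pool.Agent.H4.CFH.pf_HLR b_HLQ

theorem b_HUP : T_HUP := Pool.Agent.H41.CFH.pf_HUP b_HLQ b_HSY b_LRB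

theorem b_HLO : T_HLO := Pool.Agent.H3.CFH.pf_HLO b_HLQ b_LRB c_CHS

end Pool.Agent.H65.CF.Asm
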