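import Pool.Agent.H31.CN.T4

/-!
# Complete family: the Kronecker symbol and the fundamental discriminants
-/

set_option autoImplicit false

namespace Pool.Agent.H65.CF

open Pool.Agent.H31.CN

/-- the Kronecker symbol `(-D / p)` of a prime `p`, for `D = 0` or `3` modulo `4` -/
def ch (p D : ℕ) : ℤ :=
  if p = 2 then (if D % 8 = 7 then 1 else if D % 8 = 3 then -1 else 0) else (nrt p 1 0 D : ℤ) - 1

/-- `-D` is a negative fundamental discriminant -/
def Fd (D : ℕ) : Prop :=
  (D % 4 = 3 ∧ Squarefree D) ∨ ∃ m : ℕ, D = 4 * m ∧ Squarefree m ∧ (m % 4 = 1 ∨ m % 4 = 2)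

end Pool.Agent.H65.CF
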