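import Pool.Agent.H65.AD.TargetsF
import Pool.Agent.H65.CF.Ch

/-!
# Complete family, section 7: class numbers and Euler products in mean square, targets
-/

set_option autoImplicit false

open MeasureTheory Set Filter NumberField
open scoped Real nonZeroDivisors

namespace Pool.Agent.H65.CF

open Pool.Agent.H31.CN Pool.Agent.H65.AD

/-! ### Definitions -/

/-- the Kronecker symbol `(-D / m)`, completely multiplicative in `m` -/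
noncomputable def chm (m D : ℕ) : ℝ :=
  ∏ p ∈ m.primeFactors, ((ch p D : ℤ) : ℝ) ^ m.factorization p

/-- the number of ideals of norm `n` -/
noncomputable def aD (n D : ℕ) : ℝ := ∑ m ∈ n.divisors, chm m D

/-- the kernel -/
noncomputable def gq (u : ℝ) : ℝ := 2 * π * u / (Real.exp (2 * π * u) - 1)

/-- the kernel of the derivative -/
noncomputable def gq1 (u : ℝ) : ℝ := u * deriv gq u

/-- the smoothed sum over the Kronecker symbol -/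
noncomputable def SG (G : ℝ → ℝ) (D : ℕ) (T : ℝ) : ℝ :=
  ∑' m : ℕ, chm (m + 1) D / ((m : ℝ) + 1) * G (((m : ℝ) + 1) / T)

/-- the Euler product over the primes `p ≤ R` -/
noncomputable def LR (R D : ℕ) : ℝ :=
  ∏ p ∈ (Finset.Icc 1 R).filter Nat.Prime, (1 - ((ch p D : ℤ) : ℝ) / p)⁻¹

/-- the numbers up to `Z` without prime factors greater than `R` -/
def smo (R Z : ℕ) : Finset ℕ := (Finset.Icc 1 Z).filter (fun a => ∀ p ∈ a.primeFactors, p ≤ R)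

/-- the numbers up to `Z` without prime factors `≤ R` -/
def rou (R Z : ℕ) : Finset ℕ := (Finset.Icc 1 Z).filter (fun a => ∀ p ∈ a.primeFactors, R < p)

/-- the numbers `D` of the fundamental discriminants `-D` with `4 < D ≤ Y` -/
noncomputable def fd (Y : ℝ) : Finset ℕ := by
  classical exact (Finset.Icc 5 ⌊Y⌋₊).filter Fd

/-! ### Elementary facts -/

/-- (CHM) the Kronecker symbol is completely multiplicative and bounded. -/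
def T_CHM : Prop :=
  (∀ D : ℕ, chm 1 D = 1) ∧ (∀ m D : ℕ, |chm m D| ≤ 1) ∧
  (∀ m n D : ℕ, m ≠ 0 → n ≠ 0 → chm (m * n) D = chm m D * chm n D) ∧
  (∀ r D : ℕ, Odd r → Squarefree r → chm r D = xD r D) ∧
  (∀ n D : ℕ, |aD n D| ≤ n.divisors.card)

/-- (PDS) sums over pairs and sums over divisors. -/
def T_PDS : Prop :=
  ∀ F : ℕ → ℕ → ℝ, Summable (fun x : ℕ × ℕ => F (x.1 + 1) (x.2 + 1)) →
    Summable (fun n : ℕ => ∑ d ∈ (n + 1).divisors, F d ((n + 1) / d)) ∧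
    ∑' x : ℕ × ℕ, F (x.1 + 1) (x.2 + 1) = ∑' n : ℕ, ∑ d ∈ (n + 1).divisors, F d ((n + 1) / d)

/-- (TDS) the smoothed sum of the divisor function. -/
def T_TDS : Prop :=
  ∃ C : ℝ, 0 < C ∧ ∀ Z : ℝ, 1 ≤ Z →
    Summable (fun n : ℕ => ((n + 1).divisors.card : ℝ) * Real.exp (-(((n : ℝ) + 1) / Z))) ∧
    ∑' n : ℕ, ((n + 1).divisors.card : ℝ) * Real.exp (-(((n : ℝ) + 1) / Z)) ≤
      C * Z * (1 + Real.log Z)

/-- (GQB) the kernel. -/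
def T_GQB : Prop :=
  ContinuousOn gq1 (Ioi 0) ∧ (∀ u : ℝ, 0 < u → DifferentiableAt ℝ gq u) ∧
  ∃ C : ℝ, 0 < C ∧ (∀ u : ℝ, 0 < u → |gq u| ≤ C * Real.exp (-u) ∧ |gq1 u| ≤ C * Real.exp (-u) ∧
    |gq u - 1| ≤ C * u ∧ |gq1 u| ≤ C * u)

/-- (LMB) the sum over the ideals as a Lambert series. -/
def T_LMB : Prop :=
  ∀ (D : ℕ) (T : ℝ), 0 < T →
    Summable (fun m : ℕ => chm (m + 1) D / ((m : ℝ) + 1) * gq (((m : ℝ) + 1) / T)) ∧
    Summable (fun n : ℕ => aD (n + 1) D * Real.exp (-(2 * π * ((n : ℝ) + 1) / T))) ∧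
    ∑' n : ℕ, aD (n + 1) D * Real.exp (-(2 * π * ((n : ℝ) + 1) / T)) = T / (2 * π) * SG gq D T

/-- (DEC) every number is a product of a smooth number, a square and a squarefree number. -/
def T_DEC : Prop :=
  ∀ (R Z : ℕ) (f : ℕ → ℝ), ∑ m ∈ Finset.Icc 1 Z, f m =
    ∑ a ∈ smo R Z, ∑ s ∈ rou R Z, ∑ r ∈ (rou R Z).filter Squarefree,
      if a * s ^ 2 * r ≤ Z then f (a * s ^ 2 * r) else 0

/-- (SMN) sums over smooth numbers. -/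
def T_SMN : Prop :=
  ∃ C : ℝ, 0 < C ∧ ∀ R : ℕ, 2 ≤ R → (∀ Z : ℕ, ∑ a ∈ smo R Z, (1 : ℝ) / a ≤ C * Real.log R) ∧
    ∀ ε : ℝ, 0 < ε → ∃ Z₀ : ℕ, ∀ Z : ℕ, Z₀ ≤ Z →
      ∑ a ∈ (smo R Z).filter (fun a => Z₀ ≤ a), (1 : ℝ) / a ≤ ε ∧
      ∀ D : ℕ, |∑ a ∈ smo R Z, chm a D / a - LR R D| ≤ ε

/-- (LRB) bounds for the Euler product. -/
def T_LRB : Prop :=
  ∃ c : ℝ, 0 < c ∧ ∀ R D : ℕ, 2 ≤ R → c / Real.log R ≤ LR R D ∧ LR R D ≤ c⁻¹ * Real.log R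

/-! ### Variances -/

/-- (BLV) the variance of a sum over real characters. -/
def T_BLV : Prop :=
  ∃ C : ℝ, 0 < C ∧ ∀ (X : ℝ) (R U : ℕ) (b : ℕ → ℝ), 1 ≤ X → 2 ≤ R →
    (∀ r : ℕ, |b r| ≤ 1 / (r : ℝ)) →
    ∑ D ∈ Finset.Icc 1 ⌊X⌋₊, (∑ r ∈ (Finset.Ioc R U).filter (fun r => Odd r ∧ Squarefree r),
      b r * xD r D) ^ 2 ≤ C * (X / R + (U : ℝ) ^ (3 / 2 : ℝ))

/-- (SVR) the variance of the smoothed sum. -/
def T_SVR : Prop :=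
  ∃ C : ℝ, 0 < C ∧ ∀ (R : ℕ) (G : ℝ → ℝ) (B T Y : ℝ), 2 ≤ R → 0 ≤ B →
    (∀ u : ℝ, 0 < u → |G u| ≤ B * Real.exp (-u)) → 1 ≤ Y → 1 ≤ T → T ≤ Y ^ (9 / 16 : ℝ) →
    ∑ D ∈ Finset.Icc 1 ⌊Y⌋₊, (SG G D T -
      ∑ a ∈ smo R ⌊Y ^ (5 / 8 : ℝ)⌋₊, chm a D / a * G ((a : ℝ) / T)) ^ 2 ≤
      C * B ^ 2 * Real.log R ^ 2 * (Y / R + Y ^ (15 / 16 : ℝ))

/-- (DTS) the derivative of the smoothed sum. -/
def T_DTS : Prop :=
  ∀ (D : ℕ) (y u : ℝ), 0 < y → 0 < u →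
    HasDerivAt (fun v : ℝ => SG gq D (y * Real.sqrt v))
      (-(1 / (2 * u)) * SG gq1 D (y * Real.sqrt u)) u ∧
    ContinuousAt (fun v : ℝ => SG gq1 D (y * Real.sqrt v)) u

/-! ### Class numbers -/

/-- (RPN) the representations of numbers by the forms of the ideal classes. -/
def T_RPN : Prop :=
  ∀ (D : ℕ) (K : Type) [Field K] [NumberField K], 4 < D → Fd D → Module.finrank ℚ K = 2 →
    discr K = -(D : ℤ) → ∃ Q : ClassGroup (𝓞 K) → QF, (∀ c, Q c ∈ FD D) ∧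
      ∀ w : ℕ → ℝ, (∀ n, 0 ≤ w n) → Summable (fun n : ℕ => ((n : ℝ) + 1) * w n) →
        (∀ c, Summable (fun v : ℤ × ℤ => if v = 0 then 0 else w (val (Q c) v).toNat)) ∧
        ∑ c, ∑' v : ℤ × ℤ, (if v = 0 then 0 else w (val (Q c) v).toNat) =
          2 * ∑' n : ℕ, aD (n + 1) D * w (n + 1)

/-- (THC) the theta functions of the ideal classes. -/
def T_THC : Prop :=
  ∀ (D : ℕ) (K : Type) [Field K] [NumberField K], 4 < D → Fd D → Module.finrank ℚ K = 2 →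
    discr K = -(D : ℤ) → ∀ y : ℝ, 0 < y →
    (classNumber K : ℝ) + 2 * ∑' n : ℕ, aD (n + 1) D *
        Real.exp (-(2 * π * ((n : ℝ) + 1) / (y * Real.sqrt D))) =
      y * ((classNumber K : ℝ) + 2 * ∑' n : ℕ, aD (n + 1) D *
        Real.exp (-(2 * π * ((n : ℝ) + 1) * y / Real.sqrt D)))

/-- (HSY) the class number as a smoothed sum. -/
def T_HSY : Prop :=
  ∃ C : ℝ, 0 < C ∧ ∀ (D : ℕ) (K : Type) [Field K] [NumberField K], 4 < D → Fd D →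
    Module.finrank ℚ K = 2 → discr K = -(D : ℤ) → ∀ y : ℝ, 2 ≤ y → y ≤ Real.sqrt D →
    |(classNumber K : ℝ) / Real.sqrt D - SG gq D (y * Real.sqrt D) / π| ≤
      C * Real.log D / y ∧ (classNumber K : ℝ) ≤ C * D

/-- (HLK) the class number and the Euler product in mean square, one dyadic block. -/
def T_HLK : Prop :=
  ∃ C : ℝ, 0 < C ∧ ∀ R : ℕ, 2 ≤ R → ∃ X₀ : ℝ, ∀ X : ℝ, X₀ ≤ X →
    ∀ (K : ℕ → Type) [∀ D, Field (K D)] [∀ D, NumberField (K D)],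
      (∀ D ∈ fd X, Module.finrank ℚ (K D) = 2 ∧ discr (K D) = -(D : ℤ)) →
      ∑ D ∈ (fd X).filter (fun D : ℕ => X / 2 < D),
        ((classNumber (K D) : ℝ) / Real.sqrt D - LR R D / π) ^ 2 ≤ C * Real.log R ^ 2 / R * X

/-- (HLQ) the class number and the Euler product in mean square. -/
def T_HLQ : Prop :=
  ∃ C : ℝ, 0 < C ∧ ∀ R : ℕ, 2 ≤ R → ∃ Y₀ : ℝ, ∀ Y : ℝ, Y₀ ≤ Y →
    ∀ (K : ℕ → Type) [∀ D, Field (K D)] [∀ D, NumberField (K D)],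
      (∀ D ∈ fd Y, Module.finrank ℚ (K D) = 2 ∧ discr (K D) = -(D : ℤ)) →
      ∑ D ∈ fd Y, ((classNumber (K D) : ℝ) / Real.sqrt D - LR R D / π) ^ 2 ≤
        C * Real.log R ^ 2 / R * Y

/-- (HLR) the class number and the Euler product in mean square. -/
def T_HLR : Prop :=
  ∀ ε : ℝ, 0 < ε → ∃ R₀ : ℕ, ∀ R : ℕ, R₀ ≤ R → ∃ Y₀ : ℝ, ∀ Y : ℝ, Y₀ ≤ Y →
    ∀ (K : ℕ → Type) [∀ D, Field (K D)] [∀ D, NumberField (K D)],
      (∀ D ∈ fd Y, Module.finrank ℚ (K D) = 2 ∧ discr (K D) = -(D : ℤ)) →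
      ∑ D ∈ fd Y, ((classNumber (K D) : ℝ) / Real.sqrt D - LR R D / π) ^ 2 ≤ ε * Y

/-- (HUP) upper bounds for the mean values of the class numbers. -/
def T_HUP : Prop :=
  ∃ C : ℝ, 0 < C ∧ ∀ Y : ℝ, 1 ≤ Y →
    ∀ (K : ℕ → Type) [∀ D, Field (K D)] [∀ D, NumberField (K D)],
      (∀ D ∈ fd Y, Module.finrank ℚ (K D) = 2 ∧ discr (K D) = -(D : ℤ)) →
      ∑ D ∈ fd Y, (classNumber (K D) : ℝ) ^ 2 ≤ C * Y ^ 2 ∧
      ∑ D ∈ fd Y, (classNumber (K D) : ℝ) ≤ C * Y ^ (3 / 2 : ℝ)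

/-- (HLO) a lower bound for the mean value of the class numbers. -/
def T_HLO : Prop :=
  ∃ c Y₀ : ℝ, 0 < c ∧ ∀ Y : ℝ, Y₀ ≤ Y →
    ∀ (K : ℕ → Type) [∀ D, Field (K D)] [∀ D, NumberField (K D)],
      (∀ D ∈ fd Y, Module.finrank ℚ (K D) = 2 ∧ discr (K D) = -(D : ℤ)) →
      c * Y ^ (3 / 2 : ℝ) ≤ ∑ D ∈ fd Y, (classNumber (K D) : ℝ)

end Pool.Agent.H65.CF
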