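import Pool.Agent.H65.CF.T7
import Pool.Agent.H95.CF.FB

/-!
# Complete family, section 7: ideals and representations by forms, targets
-/

set_option autoImplicit false

open MeasureTheory Set Filter NumberField
open scoped Real nonZeroDivisors

namespace Pool.Agent.H65.CF

open Pool.Agent.H31.CN Pool.Agent.H65.AD

/-- (PRI) the forms of a fundamental discriminant are primitive. -/
def T_PRI : Prop :=
  ∀ D : ℕ, Fd D → ∀ Q ∈ FD D, ∀ t : ℕ, (t : ℤ) ∣ Q.1 → (t : ℤ) ∣ Q.2.1 → (t : ℤ) ∣ Q.2.2 → t = 1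

/-- (NPP) the number of the ideals of norm `p`. -/
def T_NPP : Prop :=
  ∀ (D : ℕ) (K : Type) [Field K] [NumberField K], 4 < D → Fd D → Module.finrank ℚ K = 2 →
    discr K = -(D : ℤ) → ∀ p : ℕ, p.Prime →
      (Nat.card {P : Ideal (𝓞 K) // Ideal.absNorm P = p} : ℤ) = 1 + ch p D

/-- (IDC) the number of the ideals of norm `n`. -/
def T_IDC : Prop :=
  ∀ (D : ℕ) (K : Type) [Field K] [NumberField K], 4 < D → Fd D → Module.finrank ℚ K = 2 →
    discr K = -(D : ℤ) → ∀ n : ℕ, 1 ≤ n →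
      (Nat.card {J : Ideal (𝓞 K) // Ideal.absNorm J = n} : ℝ) = aD n D

/-- (RPJ) the representations by the forms of the ideal classes in terms of ideals. -/
def T_RPJ : Prop :=
  ∀ (D : ℕ) (K : Type) [Field K] [NumberField K], 4 < D → Fd D → Module.finrank ℚ K = 2 →
    discr K = -(D : ℤ) → ∃ Q : ClassGroup (𝓞 K) → QF, (∀ c, Q c ∈ FD D) ∧
      ∀ w : ℕ → ℝ, (∀ n, 0 ≤ w n) →
        Summable (fun n : ℕ =>
          (Nat.card {J : Ideal (𝓞 K) // Ideal.absNorm J = n + 1} : ℝ) * w (n + 1)) →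
        (∀ c, Summable (fun v : ℤ × ℤ => if v = 0 then 0 else w (val (Q c) v).toNat)) ∧
        ∑ c, ∑' v : ℤ × ℤ, (if v = 0 then 0 else w (val (Q c) v).toNat) =
          2 * ∑' n : ℕ, (Nat.card {J : Ideal (𝓞 K) // Ideal.absNorm J = n + 1} : ℝ) * w (n + 1)

end Pool.Agent.H65.CF
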